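import Mathlib
import Pool.Agent.Y841.CM.Main

/-!
# The sharp Chang–Marshall inequality for functions with a zero of order `m`

For `f ∈ 𝓕` with a zero of order at least `m` at the origin
`∫_0^{2π} exp(|f(e^{iθ})|²) dθ ≤ 2π exp(𝕁(f)² / m)`, with equality exactly for `f(z) = c z^m`.
For `m = 1` this gives `C₀* = 2πe` and the extremal functions of the Chang–Marshall inequality.
-/

set_option autoImplicit false

open MeasureTheory Filter Topology Set Metric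
open scoped ENNReal Real

namespace Pool.Agent.Results.MP_3466b8_an.SharpByOrder

/-- The point `r e^{iθ}`. -/
noncomputable def pt (r θ : ℝ) : ℂ := (r : ℂ) * Complex.exp (θ * Complex.I)

/-- `𝕁(f) = (∬_𝔻 |f'(z)|² dx dy / π)^{1/2}`, with values in `[0, ∞]`. -/
noncomputable def J (f : ℂ → ℂ) : ℝ≥0∞ :=
  (∫⁻ z in ball (0 : ℂ) 1, ENNReal.ofReal (‖deriv f z‖ ^ 2 / π)) ^ (1 / 2 : ℝ)

/-- The class `𝓕`: `f` analytic on the open unit disc, `f 0 = 0`, `𝕁(f) ≤ 1`. -/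
def F : Set (ℂ → ℂ) := {f | DifferentiableOn ℂ f (ball (0 : ℂ) 1) ∧ f 0 = 0 ∧ J f ≤ 1}

/-- The boundary value `f(e^{iθ})`: the radial limit. By part 1 of `result` it is the
nontangential limit of `f` at `e^{iθ}` for almost every `θ`. -/
noncomputable def bv (f : ℂ → ℂ) (θ : ℝ) : ℂ :=
  limUnder (𝓝[<] (1 : ℝ)) (fun r : ℝ => f (pt r θ))

/-- The Stolz region of aperture `M` at `e^{iθ}`. -/
def Stolz (M θ : ℝ) : Set ℂ := {z | ‖z‖ < 1 ∧ ‖z - pt 1 θ‖ ≤ M * (1 - ‖z‖)}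

/-- `∫_0^{2π} exp(|f(e^{iθ})|²) dθ`, with values in `[0, ∞]`. -/
noncomputable def expInt (f : ℂ → ℂ) : ℝ≥0∞ :=
  ∫⁻ θ in Ioc 0 (2 * π), ENNReal.ofReal (Real.exp (‖bv f θ‖ ^ 2))

/-- The sharp constant `C₀* = sup_{f ∈ 𝓕} ∫_0^{2π} exp(|f(e^{iθ})|²) dθ`. -/
noncomputable def C0star : ℝ≥0∞ := ⨆ f ∈ F, expInt f

/-- `f` vanishes at the origin to order at least `m`: `f(z) = z^m g(z)` near the origin with `g`
analytic there. -/
def VanishesToOrder (m : ℕ) (f : ℂ → ℂ) : Prop :=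
  ∃ g : ℂ → ℂ, AnalyticAt ℂ g 0 ∧ ∀ᶠ z in 𝓝 (0 : ℂ), f z = z ^ m * g z

theorem pt_eq (r θ : ℝ) : pt r θ = circleMap 0 r θ := by
  simp [pt, circleMap]

theorem bv_eq (f : ℂ → ℂ) : bv f = CM.bv f := by
  ext θ
  simp only [bv, CM.bv, pt_eq]

theorem expInt_eq (f : ℂ → ℂ) : expInt f = CM.CMint f := by
  simp only [expInt, CM.CMint, bv_eq]

theorem lint_eq (f : ℂ → ℂ) : (∫⁻ z in ball (0 : ℂ) 1, ENNReal.ofReal (‖deriv f z‖ ^ 2 / π)) =
      (∫⁻ z in ball (0 : ℂ) 1, ENNReal.ofReal (‖deriv f z‖ ^ 2)) / ENNReal.ofReal π := by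
  rw [ENNReal.div_eq_inv_mul, ← lintegral_const_mul' _ _ (by simp [Real.pi_pos])]
  congr 1
  ext z
  rw [ENNReal.ofReal_div_of_pos Real.pi_pos, ENNReal.div_eq_inv_mul]

theorem mem_F_iff (f : ℂ → ℂ) : f ∈ F ↔ CM.Adm f := by
  have h1 := lint_eq f
  have h2 : J f ≤ 1 ↔
      ∫⁻ z in ball (0 : ℂ) 1, ENNReal.ofReal (‖deriv f z‖ ^ 2) ≤ ENNReal.ofReal π := by
    unfold J
    have h3 : ∀ x : ℝ≥0∞, x ^ (1 / 2 : ℝ) ≤ 1 ↔ x ≤ 1 := by
      intro x
      constructor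
      · intro h
        have h4 := ENNReal.rpow_le_rpow h (by norm_num : (0:ℝ) ≤ 2)
        rw [← ENNReal.rpow_mul, ENNReal.one_rpow] at h4
        simpa using h4
      · intro h
        exact ENNReal.rpow_le_one h (by norm_num)
    rw [h1, h3, ENNReal.div_le_iff (by simp [Real.pi_pos]) (by simp), one_mul]
  simp only [F, mem_ofPred_eq, CM.Adm, h2]

theorem J_sq (f : ℂ → ℂ) : (J f).toReal ^ 2 = Pool.Agent.Y841.CM.dd f := by
  unfold J Pool.Agent.Y841.CM.dd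
  rw [← ENNReal.toReal_rpow, lint_eq, ENNReal.toReal_div, ENNReal.toReal_ofReal Real.pi_pos.le,
    ← Real.rpow_natCast, ← Real.rpow_mul (by positivity)]
  norm_num

/-- **The sharp Chang–Marshall inequality, by the order of the zero at the origin.**
1. For every `f ∈ 𝓕` and almost every `θ`, `f` has nontangential limit `bv f θ` at `e^{iθ}`.
2. If `f ∈ 𝓕` vanishes to order at least `m ≥ 1` at the origin, then
   `∫_0^{2π} exp(|f(e^{iθ})|²) dθ ≤ 2π exp(𝕁(f)² / m)`, with equality if and only if `f(z) = c z^m`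
   with `m |c|² ≤ 1`.
3. The sharp constant for the functions of `𝓕` vanishing to order at least `m` is
   `2π exp(1 / m)`; it is attained exactly by `f(z) = c z^m`, `m |c|² = 1`.
4. `C₀* = 2πe`, and the extremal functions are exactly `f(z) = c z` with `|c| = 1`. -/
theorem result :
    (∀ f ∈ F, ∀ᵐ θ ∂(volume.restrict (Ioc 0 (2 * π))), ∀ M : ℝ,
      Tendsto f (𝓝[Stolz M θ] (pt 1 θ)) (𝓝 (bv f θ))) ∧
    (∀ m : ℕ, 1 ≤ m → ∀ f ∈ F, VanishesToOrder m f →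
      expInt f ≤ ENNReal.ofReal (2 * π * Real.exp ((J f).toReal ^ 2 / m)) ∧
      (expInt f = ENNReal.ofReal (2 * π * Real.exp ((J f).toReal ^ 2 / m)) ↔
        ∃ c : ℂ, m * ‖c‖ ^ 2 ≤ 1 ∧ ∀ z ∈ ball (0 : ℂ) 1, f z = c * z ^ m)) ∧
    (∀ m : ℕ, 1 ≤ m →
      (⨆ f ∈ {f | f ∈ F ∧ VanishesToOrder m f}, expInt f) =
        ENNReal.ofReal (2 * π * Real.exp (1 / m)) ∧
      ∀ f : ℂ → ℂ, (f ∈ F ∧ VanishesToOrder m f ∧
          expInt f = ENNReal.ofReal (2 * π * Real.exp (1 / m))) ↔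
        ∃ c : ℂ, m * ‖c‖ ^ 2 = 1 ∧ ∀ z ∈ ball (0 : ℂ) 1, f z = c * z ^ m) ∧
    C0star = ENNReal.ofReal (2 * π * Real.exp 1) ∧
    (∀ f : ℂ → ℂ, (f ∈ F ∧ expInt f = C0star) ↔
      ∃ c : ℂ, ‖c‖ = 1 ∧ ∀ z ∈ ball (0 : ℂ) 1, f z = c * z) := by
  have hpi := Real.pi_pos
  have hsharp : ∀ m : ℕ, 1 ≤ m → ∀ f ∈ F, VanishesToOrder m f →
      expInt f ≤ ENNReal.ofReal (2 * π * Real.exp ((J f).toReal ^ 2 / m)) ∧
      (expInt f = ENNReal.ofReal (2 * π * Real.exp ((J f).toReal ^ 2 / m)) ↔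
        ∃ c : ℂ, m * ‖c‖ ^ 2 ≤ 1 ∧ ∀ z ∈ ball (0 : ℂ) 1, f z = c * z ^ m) := by
    intro m hm f hf hv
    obtain ⟨g, hg, hfg⟩ := hv
    rw [J_sq, expInt_eq]
    exact Pool.Agent.Y841.CM.sharp hm hg hfg ((mem_F_iff f).mp hf)
  have hcls : ∀ m : ℕ, 1 ≤ m →
      (⨆ f ∈ {f | f ∈ F ∧ VanishesToOrder m f}, expInt f) =
        ENNReal.ofReal (2 * π * Real.exp (1 / m)) ∧
      ∀ f : ℂ → ℂ, (f ∈ F ∧ VanishesToOrder m f ∧
          expInt f = ENNReal.ofReal (2 * π * Real.exp (1 / m))) ↔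
        ∃ c : ℂ, m * ‖c‖ ^ 2 = 1 ∧ ∀ z ∈ ball (0 : ℂ) 1, f z = c * z ^ m := by
    intro m hm
    have hmr : (0:ℝ) < m := by exact_mod_cast hm
    have hJ1 : ∀ f ∈ F, (J f).toReal ^ 2 ≤ 1 := fun f hf => by
      rw [J_sq]; exact Pool.Agent.Y841.CM.dd_le_one ((mem_F_iff f).mp hf)
    have hmono : ∀ f ∈ F, Real.exp ((J f).toReal ^ 2 / m) ≤ Real.exp (1 / m) := fun f hf =>
      Real.exp_le_exp.mpr (div_le_div_of_nonneg_right (hJ1 f hf) hmr.le)
    have hback : ∀ f : ℂ → ℂ, (∃ c : ℂ, m * ‖c‖ ^ 2 = 1 ∧ ∀ z ∈ ball (0 : ℂ) 1, f z = c * z ^ m) →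
        (f ∈ F ∧ VanishesToOrder m f ∧
          expInt f = ENNReal.ofReal (2 * π * Real.exp (1 / m))) := by
      rintro f ⟨c, hc, h⟩
      refine ⟨(mem_F_iff f).mpr (Pool.Agent.Y841.CM.adm_pow hm hc.le h),
        ⟨fun _ => c, analyticAt_const, ?_⟩, ?_⟩
      · filter_upwards [isOpen_ball.mem_nhds (mem_ball_self (one_pos : (0:ℝ) < 1))] with z hz
        rw [h z hz, mul_comm]
      · rw [expInt_eq, Pool.Agent.Y841.CM.CMint_pow h]
        congr 3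
        rw [eq_div_iff hmr.ne', mul_comm]
        exact hc
    refine ⟨?_, fun f => ⟨?_, hback f⟩⟩
    · apply le_antisymm
      · apply iSup₂_le
        intro f hf
        refine (hsharp m hm f hf.1 hf.2).1.trans (ENNReal.ofReal_le_ofReal ?_)
        have := hmono f hf.1
        nlinarith
      · -- the function `z ^ m / √m`
        have h1 : (m : ℝ) * ‖(((√(m : ℝ))⁻¹ : ℝ) : ℂ)‖ ^ 2 = 1 := by
          rw [Complex.norm_real, Real.norm_eq_abs, sq_abs, inv_pow, Real.sq_sqrt hmr.le,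
            mul_inv_cancel₀ hmr.ne']
        have h2 := hback (fun z => (((√(m : ℝ))⁻¹ : ℝ) : ℂ) * z ^ m) ⟨_, h1, fun z _ => rfl⟩
        rw [← h2.2.2]
        exact le_iSup₂ (f := fun f (_ : f ∈ {f | f ∈ F ∧ VanishesToOrder m f}) => expInt f)
          (fun z => (((√(m : ℝ))⁻¹ : ℝ) : ℂ) * z ^ m) ⟨h2.1, h2.2.1⟩
    · rintro ⟨hf, hv, he⟩
      obtain ⟨h1, h2⟩ := hsharp m hm f hf hv
      rw [he, ENNReal.ofReal_le_ofReal_iff (by positivity)] at h1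
      have h3 : Real.exp (1 / m) ≤ Real.exp ((J f).toReal ^ 2 / m) :=
        le_of_mul_le_mul_left h1 (by positivity)
      have h4 : Real.exp ((J f).toReal ^ 2 / m) = Real.exp (1 / m) := le_antisymm (hmono f hf) h3
      obtain ⟨c, _, hc⟩ := h2.mp (by rw [he, h4])
      refine ⟨c, ?_, hc⟩
      rw [Real.exp_eq_exp, J_sq, Pool.Agent.Y841.CM.dd_pow hm hc] at h4
      field_simp at h4
      exact h4
  have hv1 : ∀ f ∈ F, VanishesToOrder 1 f := by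
    intro f hf
    have hnb : ball (0 : ℂ) 1 ∈ 𝓝 (0 : ℂ) := isOpen_ball.mem_nhds (mem_ball_self one_pos)
    have hgd : DifferentiableOn ℂ (dslope f 0) (ball 0 1) :=
      (Complex.differentiableOn_dslope hnb).mpr hf.1
    refine ⟨dslope f 0, hgd.analyticAt hnb, Eventually.of_forall fun z => ?_⟩
    have h1 := sub_smul_dslope f 0 z
    rw [hf.2.1, sub_zero, sub_zero, smul_eq_mul] at h1
    rw [pow_one, h1]
  have hset : {f | f ∈ F ∧ VanishesToOrder 1 f} = F := by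
    ext f
    exact ⟨fun h => h.1, fun h => ⟨h, hv1 f h⟩⟩
  have h1 := hcls 1 le_rfl
  rw [hset] at h1
  simp only [Nat.cast_one, div_one, one_mul, pow_one] at h1
  have hC : C0star = ENNReal.ofReal (2 * π * Real.exp 1) := h1.1
  refine ⟨?_, hsharp, hcls, hC, ?_⟩
  · intro f hf
    filter_upwards [CM.nontangential_ae ((mem_F_iff f).mp hf)] with θ hθ M
    have := hθ M
    simp only [Stolz, pt_eq, bv_eq]
    exact this
  · intro f
    rw [hC]
    constructor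
    · rintro ⟨hf, he⟩
      obtain ⟨c, hc, h⟩ := (h1.2 f).mp ⟨hf, hv1 f hf, he⟩
      exact ⟨c, by nlinarith [norm_nonneg c], h⟩
    · rintro ⟨c, hc, h⟩
      have := (h1.2 f).mpr ⟨c, by rw [hc]; norm_num, h⟩
      exact ⟨this.1, this.2.2⟩

end Pool.Agent.Results.MP_3466b8_an.SharpByOrder
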